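import Pool.Agent.Helper78.BI.Start
import Pool.Agent.Helper9.FP.Lin5

/-!
# Project OB (MP_0f6f3f_an, target `so(2, n)`): common definitions

`JR N`, `JJ N`: the permutation matrix which exchanges `0, N - 1` and `1, N - 2` (`N = n + 2`). `so2 N`: the Lie algebra `so(2, n)` of the real matrices `X` with `Xᵀ J = - J X`.
`SO2 P S`: the representation `P` is real and preserves `J`, with compatible singular value decompositions `S`. `R1 S` (points: the gap after `0` is large, the gap after `1` is
bounded) and `R2 S` (lines: the gap after `1` is large, the gap after `0` is bounded): the strata. `px S γ`: the projection on the first right singular vector (a point if `γ` is in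
`R1`); `pl S γ`: the projection on the first two right singular vectors (a line if `γ` is in `R2`).
-/

set_option autoImplicit false

open Filter Topology Matrix

namespace Pool.Agent.Helper55.OB

open Pool.Agent.Helper84 Pool.Agent.Helper84.GN Pool.Agent.Helper84.GN.S3 Pool.Agent.Helper84.GN.S3.X
open Pool.Agent.Helper84.NI Pool.Agent.Helper84.GVN Pool.Agent.Helper90.RK
open Pool.Agent.Helper96.RK hiding toReg
open Pool.Agent.Helper9.Lin (cjM)

/-- The permutation `0 ↔ N - 1`, `1 ↔ N - 2`. -/
def jj (N : ℕ) (i : Fin N) : Fin N := if (i : ℕ) < 2 ∨ N ≤ (i : ℕ) + 2 then i.rev else i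

/-- The form, real matrix. -/
def JR (N : ℕ) : Matrix (Fin N) (Fin N) ℝ := Matrix.of fun i j => if j = jj N i then 1 else 0

/-- The form, complex matrix. -/
def JJ (N : ℕ) : Matrix (Fin N) (Fin N) ℂ := Matrix.of fun i j => if j = jj N i then 1 else 0

attribute [local instance 100] LieRing.ofAssociativeRing

/-- The Lie algebra `so(2, N - 2)`. -/
def so2 (N : ℕ) : LieSubalgebra ℝ (Matrix (Fin N) (Fin N) ℝ) where
  carrier := {X | Xᵀ * JR N + JR N * X = 0}
  add_mem' {X Y} hX hY := by
    have hX' : Xᵀ * JR N + JR N * X = 0 := hX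
    have hY' : Yᵀ * JR N + JR N * Y = 0 := hY
    change (X + Y)ᵀ * JR N + JR N * (X + Y) = 0
    rw [transpose_add, Matrix.add_mul, Matrix.mul_add, add_add_add_comm, hX', hY', add_zero]
  zero_mem' := by
    change (0 : Matrix (Fin N) (Fin N) ℝ)ᵀ * JR N + JR N * 0 = 0
    rw [transpose_zero, Matrix.zero_mul, Matrix.mul_zero, add_zero]
  smul_mem' c X hX := by
    have hX' : Xᵀ * JR N + JR N * X = 0 := hX
    change (c • X)ᵀ * JR N + JR N * (c • X) = 0
    rw [transpose_smul, Matrix.smul_mul, Matrix.mul_smul, ← smul_add, hX', smul_zero]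
  lie_mem' {X Y} hX hY := by
    have hX' : Xᵀ * JR N = -(JR N * X) := eq_neg_of_add_eq_zero_left hX
    have hY' : Yᵀ * JR N = -(JR N * Y) := eq_neg_of_add_eq_zero_left hY
    change (X * Y - Y * X)ᵀ * JR N + JR N * (X * Y - Y * X) = 0
    rw [transpose_sub, transpose_mul, transpose_mul, Matrix.sub_mul, Matrix.mul_assoc, Matrix.mul_assoc, hX', hY',
      Matrix.mul_neg, Matrix.mul_neg, ← Matrix.mul_assoc, ← Matrix.mul_assoc, hX', hY', Matrix.mul_sub]
    simp only [Matrix.neg_mul, neg_neg, Matrix.mul_assoc]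
    abel

theorem mem_so2 {N : ℕ} {X : Matrix (Fin N) (Fin N) ℝ} : X ∈ so2 N ↔ Xᵀ * JR N + JR N * X = 0 := Iff.rfl

variable {G : Type} [Group G] {N : ℕ} {P : PH G N}

/-- A representation by real matrices which preserve `J`, with compatible singular value decompositions. -/
structure SO2 (P : PH G N) (S : Sv P) : Prop where
  hN : 5 ≤ N
  real : ∀ g, cjM (P.ι g) = P.ι g
  form : ∀ g, (P.ι g)ᵀ * JJ N * P.ι g = JJ N
  realL : ∀ g, cjM (S.kL g) = S.kL g
  realR : ∀ g, cjM (S.kR g) = S.kR g
  formL : ∀ g, (S.kL g)ᵀ * JJ N * S.kL g = JJ N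
  formR : ∀ g, (S.kR g)ᵀ * JJ N * S.kR g = JJ N
  inv : ∀ g (i : Fin N), S.s g i * S.s g i.rev = 1
  mid : ∀ g (i : Fin N), 2 ≤ (i : ℕ) → (i : ℕ) + 3 ≤ N → S.s g i = 1

/-- The bounded gaps of the stratum of the points. -/
def K1 (N : ℕ) : Finset (Fin N) := Finset.univ.filter fun i => (i : ℕ) ≠ 0 ∧ (i : ℕ) + 2 ≠ N

/-- The bounded gaps of the stratum of the lines. -/
def K2 (N : ℕ) : Finset (Fin N) := Finset.univ.filter fun i => (i : ℕ) ≠ 1 ∧ (i : ℕ) + 3 ≠ N

/-- The stratum of the points. -/
noncomputable def R1 (S : Sv P) : Reg G := GN.toReg (chStr S (K1 N) [])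

/-- The stratum of the lines. -/
noncomputable def R2 (S : Sv P) : Reg G := GN.toReg (chStr S (K2 N) [])

/-- The pseudometric of the positions for the points. -/
noncomputable def pd1 (S : Sv P) : PD G := posPD S (chStr S (K1 N) []).b

/-- The pseudometric of the positions for the lines. -/
noncomputable def pd2 (S : Sv P) : PD G := posPD S (chStr S (K2 N) []).b

/-- The projection on the first right singular vector. -/
noncomputable def px (S : Sv P) (γ : G) : MN N :=
  S.kR γ * diagonal (fun i : Fin N => if (i : ℕ) = 0 then (1 : ℂ) else 0) * (S.kR γ)ᴴ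

/-- The projection on the first two right singular vectors. -/
noncomputable def pl (S : Sv P) (γ : G) : MN N :=
  S.kR γ * diagonal (fun i : Fin N => if (i : ℕ) ≤ 1 then (1 : ℂ) else 0) * (S.kR γ)ᴴ

end Pool.Agent.Helper55.OB
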