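import Pool.Agent.Helper55.OB.Gen
import Pool.Agent.Helper43.LF.Defs

/-!
# Project OB (MP_0f6f3f_an, target `so(2, n)`): the cocycle data
-/

set_option autoImplicit false
set_option linter.unusedSectionVars false

open Filter Topology MeasureTheory Matrix

namespace Pool.Agent.Helper55.OB

open Pool.Agent.Helper84 Pool.Agent.Helper84.GN Pool.Agent.Helper84.GN.S3 Pool.Agent.Helper84.GN.S3.X
open Pool.Agent.Helper84.NI Pool.Agent.Helper84.GVN Pool.Agent.Helper90.RK
open Pool.Agent.Helper96.RK hiding toReg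
open Pool.Agent.Helper66.FR Pool.Agent.Helper84.FR Pool.Agent.Helper55.FR
open Pool.Agent.Helper78.BM hiding Ctr
open Pool.Agent.Helper78.BM (Ctr)
open Pool.Agent.Helper43.TA (Dat TwoF ltr ms)
open Pool.Agent.Helper43.LF (CocI)
open Pool.Agent.Helper66.RKS Pool.Agent.Helper96.SA Pool.Agent.Helper96.TO
open Pool.Agent.Helper35.TZ (autC)
open Pool.Agent.Helper43.TZ (Dir opg)
open Pool.Agent.Helper42.TZ (slR)
open Pool.Agent.Helper77.ST (SimPair lev RL lG2)

variable {L L' : Type} [LieRing L] [LieAlgebra ℝ L] [LieRing L'] [LieAlgebra ℝ L'] {M M' : ℕ} {θ : L ≃ₗ⁅ℝ⁆ L} {θ' : L' ≃ₗ⁅ℝ⁆ L'}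
  {b : Module.Basis (Fin M) ℝ L} {b' : Module.Basis (Fin M') ℝ L'} {A : Submodule ℝ L} {N : ℕ}

variable {X : Type} [MeasurableSpace X] [MulAction (autC b) X] [MeasurableConstSMul (autC b) X] {μ : Measure X}
  [SMulInvariantMeasure (autC b) X μ] [IsProbabilityMeasure μ] {Γ : Subgroup (autC b)} [Countable Γ] {a : Cocy (autC b) X Γ}
  {Γ' : Subgroup (autC b')} {E : Emb Γ Γ'} {P : PH Γ' N} {S : Sv P}

/-- Everything that is used of the cocycle and of the embedding. -/
structure Cyc (μ : Measure X) [SMulInvariantMeasure (autC b) X μ] [IsProbabilityMeasure μ] (a : Cocy (autC b) X Γ) (E : Emb Γ Γ') : Prop where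
  hF2 : ∀ l : Γ, Tendsto (fun g : autC b => μ {x | a.a g x = l}) (cocompact (autC b)) (𝓝 0)
  h3 : Tendsto (fun g : autC b => μ {x | a.a g x ≠ 1}) (𝓝 1) (𝓝 0)
  hF4 : ∀ F : Subgroup (autC b), DiscreteTopology F → ∃ p : X → Γ → F, (∀ (l : Γ) (s : Set F), MeasurableSet {x | p x l ∈ s}) ∧
    ∀ (f : F) (x : X) (l : Γ), p ((f : autC b) • x) (a.a f x * l) = f * p x l
  hK : Kcont (autC b) μ
  hinv : InvT μ a E
  full : FullE E
  coci : CocI μ a

end Pool.Agent.Helper55.OB
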