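import Pool.Agent.Helper55.OB.Src2

/-!
# Project OB (MP_0f6f3f_an, target `so(2, n)`): the centralizers of the two vertices generate the group

`gen_alg`: `L` is generated by the centralizers of `Hv` and `Hu`. `gen_pair2`: a closed subgroup which contains the centralizers of the two sequences is everything.
-/

set_option autoImplicit false
set_option linter.unusedSectionVars false

open Filter Topology MeasureTheory Matrix

namespace Pool.Agent.Helper55.OB

open Pool.Agent.Helper96.SA Pool.Agent.Helper96.TO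
open Pool.Agent.Helper35.TZ (autC isAdj_autC autC_sub)
open Pool.Agent.Helper66.FR (cen mem_cen)
open Pool.Agent.Helper77.ST Pool.Agent.Helper77.LA Pool.Agent.Helper69.SLN

variable {L : Type} [LieRing L] [LieAlgebra ℝ L] {N : ℕ} {θ : L ≃ₗ⁅ℝ⁆ L} {b : Module.Basis (Fin N) ℝ L} {A : Submodule ℝ L}
  {α β : Module.Dual ℝ A} {Hv Hu : A}

theorem kill_lie (x y z : L) : killingForm ℝ L ⁅x, y⁆ z = killingForm ℝ L x ⁅y, z⁆ := LieModule.traceForm_apply_lie_apply ℝ L L x y z

/-- `[x, θ x] = κ(x, θ x) τ φ`. -/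
theorem lie_theta (h : CartanBasis θ b) (hA : MaxFlat θ A) {τ : Module.Dual ℝ A ≃ₗ[ℝ] A}
    (hτ : ∀ (φ : Module.Dual ℝ A) (a : A), killingForm ℝ L (τ φ : L) (a : L) = φ a) {φ : Module.Dual ℝ A} {x : L} (hx : Wv A φ x) :
    ⁅x, θ x⁆ = killingForm ℝ L x (θ x) • (τ φ : L) := by
  have hxt := hx.theta hA
  have h1 : ⁅x, θ x⁆ ∈ A := by
    refine hA.max _ ?_ fun y hy => ?_
    · rw [LieEquiv.map_lie, h.invol, ← lie_skew]
    · have h2 := (hx.lie hxt) ⟨y, hy⟩
      rw [add_neg_cancel, LinearMap.zero_apply, zero_smul] at h2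
      rw [← lie_skew, h2, neg_zero]
  have h2 : (⟨_, h1⟩ : A) - killingForm ℝ L x (θ x) • τ φ = 0 := by
    apply kA_injective h hA
    rw [map_zero]
    refine LinearMap.ext fun a => ?_
    rw [kA_apply, LinearMap.zero_apply]
    change killingForm ℝ L (⁅x, θ x⁆ - killingForm ℝ L x (θ x) • (τ φ : L)) (a : L) = 0
    rw [map_sub, map_smul, LinearMap.sub_apply, LinearMap.smul_apply, hτ, kill_lie, ← lie_skew, hxt a, LinearMap.neg_apply, neg_smul,
      neg_neg, map_smul, smul_eq_mul, smul_eq_mul]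
    ring
  have h3 := congrArg Subtype.val (sub_eq_zero.1 h2)
  exact h3

/-- A weight vector of positive weight in the direction of `φ` is not killed by `θ x`. -/
theorem zero_of_kill (h : CartanBasis θ b) (hA : MaxFlat θ A) {τ : Module.Dual ℝ A ≃ₗ[ℝ] A}
    (hτ : ∀ (φ : Module.Dual ℝ A) (a : A), killingForm ℝ L (τ φ : L) (a : L) = φ a) {φ ψ : Module.Dual ℝ A} {x z : L}
    (hx : Wv A φ x) (hx0 : x ≠ 0) (hz : Wv A ψ z) (hp : 0 < ψ (τ φ)) (h0 : ⁅θ x, z⁆ = 0) : z = 0 := by
  by_contra hz0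
  have h1 : killingForm ℝ L ⁅x, z⁆ (θ ⁅x, z⁆) = killingForm ℝ L x (θ x) * ψ (τ φ) * killingForm ℝ L z (θ z) := by
    have e1 : ⁅⁅x, z⁆, θ x⁆ = (killingForm ℝ L x (θ x) * ψ (τ φ)) • z := by
      rw [lie_lie, ← lie_skew z (θ x), h0, neg_zero, lie_zero, zero_sub, lie_theta h hA hτ hx, lie_smul, ← lie_skew z, hz (τ φ), smul_neg,
        neg_neg, smul_smul]
    rw [LieEquiv.map_lie, ← kill_lie, e1, map_smul, LinearMap.smul_apply, smul_eq_mul]
  have h2 := pos h hx0
  have h3 := pos h hz0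
  have h4 : 0 ≤ -killingForm ℝ L ⁅x, z⁆ (θ ⁅x, z⁆) := by
    by_cases hc : ⁅x, z⁆ = 0
    · rw [hc]
      simp
    · exact (pos h hc).le
  rw [h1] at h4
  have h5 : 0 < (-killingForm ℝ L x (θ x)) * (-killingForm ℝ L z (θ z)) * ψ (τ φ) := mul_pos (mul_pos h2 h3) hp
  nlinarith

/-- Weight spaces which contain no vector orthogonal to `K` are in `K`. -/
theorem weight_le (h : CartanBasis θ b) (K : Submodule ℝ L) (V : Submodule ℝ L)
    (hK : ∀ y ∈ V, (∀ x ∈ K, x ∈ V → killingForm ℝ L x (θ y) = 0) → y = 0) : V ≤ K := by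
  have : FiniteDimensional ℝ L := Module.Finite.of_basis b
  let B : V →ₗ[ℝ] Module.Dual ℝ V :=
    { toFun := fun y =>
        { toFun := fun x => killingForm ℝ L (x : L) (θ (y : L))
          map_add' := fun x x' => by rw [Submodule.coe_add, map_add, LinearMap.add_apply]
          map_smul' := fun c x => by rw [Submodule.coe_smul, map_smul, LinearMap.smul_apply, RingHom.id_apply] }
      map_add' := fun y y' => LinearMap.ext fun x => by
        change killingForm ℝ L (x : L) (θ ((y + y' : V) : L)) = killingForm ℝ L (x : L) (θ (y : L)) + killingForm ℝ L (x : L) (θ (y' : L))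
        rw [Submodule.coe_add, map_add, map_add]
      map_smul' := fun c y => LinearMap.ext fun x => by
        change killingForm ℝ L (x : L) (θ ((c • y : V) : L)) = c • killingForm ℝ L (x : L) (θ (y : L))
        rw [Submodule.coe_smul, map_smul, map_smul] }
  have hB : Function.Injective B := by
    rw [← LinearMap.ker_eq_bot, Submodule.eq_bot_iff]
    intro y hy
    have h1 : killingForm ℝ L (y : L) (θ (y : L)) = 0 := LinearMap.congr_fun (LinearMap.mem_ker.1 hy) y
    by_contra h0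
    have h2 := pos h (x := (y : L)) fun hc => h0 (Subtype.ext hc)
    rw [h1, neg_zero] at h2
    exact lt_irrefl _ h2
  have hBs : Function.Surjective B := (LinearMap.injective_iff_surjective_of_finrank_eq_finrank Subspace.dual_finrank_eq.symm).1 hB
  by_contra hle
  have hne : (K.comap V.subtype) ≠ ⊤ := by
    intro htop
    apply hle
    intro y hy
    have h1 : (⟨y, hy⟩ : V) ∈ K.comap V.subtype := by
      rw [htop]
      trivial
    exact h1
  obtain ⟨g, hg0, hg⟩ := Submodule.exists_le_ker_of_lt_top _ (lt_top_iff_ne_top.2 hne)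
  obtain ⟨y, rfl⟩ := hBs g
  apply hg0
  have h1 : y = 0 := Subtype.ext (hK y y.2 fun x hx hxV => hg (show (⟨x, hxV⟩ : V) ∈ K.comap V.subtype from hx))
  rw [h1, map_zero]

/-- **Generation.** A subalgebra, stable under `θ`, which contains the centralizers of `Hv` and `Hu`, is everything. -/
theorem gen_alg (h : CartanBasis θ b) (hA : MaxFlat θ A) (hP : Pair2 A α β Hv Hu) (K : LieSubalgebra ℝ L) (hKθ : ∀ x ∈ K, θ x ∈ K)
    (hv : ∀ x : L, ⁅(Hv : L), x⁆ = 0 → x ∈ K) (hu : ∀ x : L, ⁅(Hu : L), x⁆ = 0 → x ∈ K) : K = ⊤ := by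
  obtain ⟨τ, hτ⟩ := exists_tau h hA
  have hAK : ∀ a ∈ A, a ∈ K := fun a ha => hv a (hA.abel _ Hv.2 _ ha)
  -- positive weights
  have key : ∀ s : ℕ, ∀ m n : ℕ, m + n = s → ∀ y : L, Wv A ((m : ℝ) • α + (n : ℝ) • β) y → y ∈ K := by
    intro s
    induction s using Nat.strong_induction_on with
    | _ s ih =>
      intro m n hmn y hy
      have e1 : ((m : ℝ) • α + (n : ℝ) • β) Hv = m := by
        simp only [LinearMap.add_apply, LinearMap.smul_apply, hP.av, hP.bv, smul_eq_mul, mul_one, mul_zero, add_zero]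
      have e2 : ((m : ℝ) • α + (n : ℝ) • β) Hu = n := by
        simp only [LinearMap.add_apply, LinearMap.smul_apply, hP.au, hP.bu, smul_eq_mul, mul_one, mul_zero, zero_add]
      rcases Nat.eq_zero_or_pos m with hm0 | hm0
      · refine hv y ?_
        rw [hy Hv, e1, hm0, Nat.cast_zero, zero_smul]
      rcases Nat.eq_zero_or_pos n with hn0 | hn0
      · refine hu y ?_
        rw [hy Hu, e2, hn0, Nat.cast_zero, zero_smul]
      have hle : rsp A ((m : ℝ) • α + (n : ℝ) • β) ≤ K.toSubmodule := by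
        refine weight_le h K.toSubmodule _ fun z hz hzK => ?_
        have hz' : Wv A ((m : ℝ) • α + (n : ℝ) • β) z := hz
        have hnz : ((m : ℝ) • α + (n : ℝ) • β) ≠ 0 := fun h0 => by
          have h3 := hP.sp.ind _ _ h0
          have h4 : (m : ℝ) ≠ 0 := by positivity
          exact h4 h3.1
        -- the elements `θ x` of the simple root spaces kill `z`
        have kill : ∀ (φ : Module.Dual ℝ A) (x : L), Wv A φ x → x ∈ K → (∀ w, Wv A ((m : ℝ) • α + (n : ℝ) • β - φ) w → w ∈ K) → ⁅θ x, z⁆ = 0 := by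
          intro φ x hx hxK hw
          have h3 : Wv A ((m : ℝ) • α + (n : ℝ) • β - φ) ⁅θ x, z⁆ := by
            have h4 := (hx.theta hA).lie hz'
            rwa [neg_add_eq_sub] at h4
          have h4 : ⁅θ x, z⁆ ∈ K := hw _ h3
          by_contra hne
          have h5 := pos h hne
          have h6 : ⁅x, ⁅θ x, z⁆⁆ ∈ K := K.lie_mem hxK h4
          have h7 : Wv A ((m : ℝ) • α + (n : ℝ) • β) ⁅x, ⁅θ x, z⁆⁆ := by
            have h8 := hx.lie h3
            rwa [add_sub_cancel] at h8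
          have h8 := hzK _ h6 h7
          have h9 : killingForm ℝ L ⁅θ x, z⁆ (θ ⁅θ x, z⁆) = -killingForm ℝ L ⁅x, ⁅θ x, z⁆⁆ (θ z) := by
            rw [LieEquiv.map_lie, h.invol, ← kill_lie, ← lie_skew ⁅θ x, z⁆ x, map_neg, LinearMap.neg_apply]
          rw [h9, h8, neg_zero, neg_zero] at h5
          exact lt_irrefl _ h5
        have hc : 0 < m * (α (τ ((m : ℝ) • α + (n : ℝ) • β))) + n * (β (τ ((m : ℝ) • α + (n : ℝ) • β))) := by
          have h3 := tau_pos hτ h hA hnz
          simpa only [LinearMap.add_apply, LinearMap.smul_apply, smul_eq_mul] using h3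
        have hor : 0 < α (τ ((m : ℝ) • α + (n : ℝ) • β)) ∨ 0 < β (τ ((m : ℝ) • α + (n : ℝ) • β)) := by
          by_contra hcc
          rw [not_or, not_lt, not_lt] at hcc
          have h3 : (m : ℝ) * (α (τ ((m : ℝ) • α + (n : ℝ) • β))) ≤ 0 := mul_nonpos_of_nonneg_of_nonpos (Nat.cast_nonneg m) hcc.1
          have h4 : (n : ℝ) * (β (τ ((m : ℝ) • α + (n : ℝ) • β))) ≤ 0 := mul_nonpos_of_nonneg_of_nonpos (Nat.cast_nonneg n) hcc.2
          linarith
        obtain ⟨m', rfl⟩ : ∃ m', m = m' + 1 := ⟨m - 1, by omega⟩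
        obtain ⟨n', rfl⟩ : ∃ n', n = n' + 1 := ⟨n - 1, by omega⟩
        rcases hor with hor | hor
        · obtain ⟨-, x, hx0, hx⟩ := hP.sp.ha
          have hxK : x ∈ K := hu x (by rw [hx Hu, hP.au, zero_smul])
          refine zero_of_kill h hA hτ hx hx0 hz' (by rw [tau_symm hτ]; exact hor) (kill α x hx hxK fun w hw => ?_)
          refine ih (m' + (n' + 1)) (by omega) m' (n' + 1) rfl w ?_
          have e3 : ((m' : ℝ)) • α + ((n' + 1 : ℕ) : ℝ) • β = ((m' + 1 : ℕ) : ℝ) • α + ((n' + 1 : ℕ) : ℝ) • β - α := by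
            push_cast
            module
          rw [e3]
          exact hw
        · obtain ⟨-, x, hx0, hx⟩ := hP.sp.hb
          have hxK : x ∈ K := hv x (by rw [hx Hv, hP.bv, zero_smul])
          refine zero_of_kill h hA hτ hx hx0 hz' (by rw [tau_symm hτ]; exact hor) (kill β x hx hxK fun w hw => ?_)
          refine ih ((m' + 1) + n') (by omega) (m' + 1) n' rfl w ?_
          have e3 : ((m' + 1 : ℕ) : ℝ) • α + ((n' : ℕ) : ℝ) • β = ((m' + 1 : ℕ) : ℝ) • α + ((n' + 1 : ℕ) : ℝ) • β - β := by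
            push_cast
            module
          rw [e3]
          exact hw
      exact hle hy
  have hall : (⊤ : Submodule ℝ L) ≤ K.toSubmodule := by
    rw [← span_weights h hA, Submodule.span_le]
    rintro x ⟨φ, hx⟩
    by_cases h0 : φ = 0
    · refine hv x ?_
      rw [hx Hv, h0, LinearMap.zero_apply, zero_smul]
    by_cases hφ : φ ∈ rootsL A
    · obtain ⟨m, n, h1 | h1⟩ := hP.sp.pos φ hφ
      · exact key _ m n rfl x (by rw [← h1]; exact hx)
      · have h2 : θ x ∈ K := key _ m n rfl (θ x) (by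
          have h3 := hx.theta hA
          rw [h1, neg_neg] at h3
          exact h3)
        have h3 := hKθ _ h2
        rw [h.invol] at h3
        exact h3
    · rw [hx.eq_zero hφ h0]
      exact K.zero_mem
  exact LieSubalgebra.toSubmodule_injective (top_le_iff.1 hall)

/-- The subalgebra generated by the two centralizers is everything. -/
theorem gen_alg' (h : CartanBasis θ b) (hA : MaxFlat θ A) (hP : Pair2 A α β Hv Hu) :
    LieSubalgebra.lieSpan ℝ L {x : L | ⁅(Hv : L), x⁆ = 0 ∨ ⁅(Hu : L), x⁆ = 0} = ⊤ := by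
  refine gen_alg h hA hP _ ?_ (fun x hx => LieSubalgebra.subset_lieSpan (Or.inl hx)) fun x hx => LieSubalgebra.subset_lieSpan (Or.inr hx)
  intro x hx
  have h1 : LieSubalgebra.lieSpan ℝ L {x : L | ⁅(Hv : L), x⁆ = 0 ∨ ⁅(Hu : L), x⁆ = 0} ≤
      (LieSubalgebra.lieSpan ℝ L {x : L | ⁅(Hv : L), x⁆ = 0 ∨ ⁅(Hu : L), x⁆ = 0}).comap (θ : L →ₗ⁅ℝ⁆ L) := by
    rw [LieSubalgebra.lieSpan_le]
    have key : ∀ (H : A) (y : L), ⁅(H : L), y⁆ = 0 → ⁅(H : L), θ y⁆ = 0 := by
      intro H y hy
      have h2 : (H : L) = θ (-(H : L)) := by rw [map_neg, hA.neg _ H.2, neg_neg]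
      rw [h2, ← LieEquiv.map_lie, neg_lie, hy, neg_zero, map_zero]
    rintro y (hy | hy)
    · exact LieSubalgebra.subset_lieSpan (Or.inl (key _ y hy))
    · exact LieSubalgebra.subset_lieSpan (Or.inr (key _ y hy))
  exact h1 hx

/-- **A closed subgroup which contains the two centralizers is everything.** -/
theorem gen_pair2 (h : CartanBasis θ b) (hA : MaxFlat θ A) (hP : Pair2 A α β Hv Hu) {k k' : ℕ → ℝ} (Z : Subgroup (autC b))
    (hZ : IsClosed (Z : Set (autC b))) (hv : cen (sq b (Hv : L) k) ≤ Z) (hu : cen (sq b (Hu : L) k') ≤ Z) : Z = ⊤ := by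
  set G' : Subgroup (GL (Fin N) ℝ) := Z.map (autC b).subtype with hG'
  have hc : IsClosed (G' : Set (GL (Fin N) ℝ)) := by
    rw [hG', Subgroup.coe_map]
    exact ((isAdj_autC b).closed.isClosedEmbedding_subtypeVal.isClosedMap) _ hZ
  have hmem : ∀ x : L, TT_to b x ∈ lie G' → eC b x ∈ Z := by
    intro x hx
    have h1 := mem_lie.1 hx 1
    rw [one_smul] at h1
    obtain ⟨z, hz, hzx⟩ := h1
    have h2 : z = eC b x := Subtype.ext hzx
    rwa [← h2]
  have hcom : ∀ (H : L) (κ : ℕ → ℝ), cen (sq b H κ) ≤ Z → ∀ x : L, ⁅H, x⁆ = 0 → TT_to b x ∈ lie G' := by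
    intro H κ hκ x hx
    rw [mem_lie]
    intro t
    refine ⟨eC b (t • x), hκ ?_, ?_⟩
    · rw [mem_cen]
      intro n
      exact eC_comm b (by rw [smul_lie, lie_smul, hx, smul_zero, smul_zero])
    · change ((eC b (t • x) : autC b) : GL (Fin N) ℝ) = _
      rw [eC_smul]
  obtain ⟨W, hW⟩ := lie_submodule hc
  have hmW : ∀ X, X ∈ lie G' ↔ X ∈ W := fun X => by rw [← hW, SetLike.mem_coe]
  let K : LieSubalgebra ℝ L :=
    { carrier := {x : L | TT_to b x ∈ lie G'}
      add_mem' := fun {x y} hx hy => by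
        change TT_to b (x + y) ∈ lie G'
        rw [map_add, hmW]
        exact W.add_mem ((hmW _).1 hx) ((hmW _).1 hy)
      zero_mem' := by
        change TT_to b 0 ∈ lie G'
        rw [map_zero, hmW]
        exact W.zero_mem
      smul_mem' := fun c x hx => by
        change TT_to b (c • x) ∈ lie G'
        rw [map_smul, hmW]
        exact W.smul_mem c ((hmW _).1 hx)
      lie_mem' := fun {x y} hx hy => by
        change TT_to b ⁅x, y⁆ ∈ lie G'
        rw [TT_lie_to]
        exact lie_bracket hc hx hy }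
  have hK : K = ⊤ := by
    rw [eq_top_iff, ← gen_alg' h hA hP, LieSubalgebra.lieSpan_le]
    rintro x (hx | hx)
    · exact hcom _ _ hv x hx
    · exact hcom _ _ hu x hx
  rw [eq_top_iff]
  intro g _
  have h1 := autC_sub h g.2
  have h2 : (Subgroup.closure (Set.range fun x : L => ex (LinearMap.toMatrix b b (LieAlgebra.ad ℝ L x)))) ≤ G' := by
    rw [Subgroup.closure_le]
    rintro _ ⟨x, rfl⟩
    have h3 : x ∈ K := by
      rw [hK]
      trivial
    exact ⟨eC b x, hmem x h3, rfl⟩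
  have h3 : (g : GL (Fin N) ℝ) ∈ G' := hc.closure_subset_iff.2 h2 h1
  obtain ⟨z, hz, hzg⟩ := h3
  have h4 : z = g := Subtype.ext hzg
  rwa [← h4]

end Pool.Agent.Helper55.OB
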