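import Pool.Agent.Helper55.OB.Top
import Mathlib.Algebra.Lie.Classical

/-!
# Project OB (MP_0f6f3f_an): the Lie algebra `so(2, n)` of Mathlib

`so_equiv`: `LieAlgebra.Orthogonal.so' (Fin 2) (Fin n) ℝ` is isomorphic to `so2 (n + 2)`. `final'`: the main theorem in terms of it, for real rank at least one.
-/

set_option autoImplicit false

open Matrix

namespace Pool.Agent.Helper55.OB

open Pool.Agent.Helper66.RKS Pool.Agent.Helper96.SA Pool.Agent.Helper96.TO Pool.Agent.Helper96.HN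
open Pool.Agent.Helper35.TZ (autC isAdj_autC)

attribute [local instance 100] LieRing.ofAssociativeRing

variable {n : ℕ}

/-- The embedding of the two coordinates. -/
def EE (n : ℕ) : Matrix (Fin 2) (Fin n) ℝ := Matrix.of fun a i => if (i : ℕ) = (a : ℕ) then 1 else 0

theorem EE_mul (hn : 2 ≤ n) : EE n * (EE n)ᵀ = 1 := by
  ext a b
  rw [mul_apply, one_apply, Finset.sum_eq_single (⟨(a : ℕ), by omega⟩ : Fin n)]
  · simp only [EE, of_apply, transpose_apply, if_true, one_mul]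
    by_cases h : a = b
    · rw [if_pos h, if_pos (by rw [h])]
    · rw [if_neg h, if_neg fun h' => h (Fin.ext h')]
  · intro i _ hi
    have h : ¬ (i : ℕ) = (a : ℕ) := fun h => hi (Fin.ext h)
    simp only [EE, of_apply, if_neg h, zero_mul]
  · intro h
    exact absurd (Finset.mem_univ _) h

/-- The transformation. -/
noncomputable def PP (n : ℕ) : Matrix (Fin 2 ⊕ Fin n) (Fin 2 ⊕ Fin n) ℝ :=
  fromBlocks ((-1 / 2 : ℝ) • (1 : Matrix (Fin 2) (Fin 2) ℝ)) (EE n) ((1 / 2 : ℝ) • (EE n)ᵀ) 1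

/-- Its inverse. -/
noncomputable def QQ (n : ℕ) : Matrix (Fin 2 ⊕ Fin n) (Fin 2 ⊕ Fin n) ℝ :=
  fromBlocks (-1) (EE n) ((1 / 2 : ℝ) • (EE n)ᵀ) (1 - (1 / 2 : ℝ) • ((EE n)ᵀ * EE n))

theorem PP_QQ (hn : 2 ≤ n) : PP n * QQ n = 1 := by
  have h := EE_mul hn
  have h2 : EE n * ((EE n)ᵀ * EE n) = EE n := by rw [← Matrix.mul_assoc, h, Matrix.one_mul]
  rw [PP, QQ, fromBlocks_multiply, ← fromBlocks_one]
  congr 1
  · rw [smul_mul, Matrix.mul_smul, h, Matrix.one_mul, smul_neg, ← neg_smul, ← add_smul]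
    norm_num
  · rw [smul_mul, Matrix.one_mul, Matrix.mul_sub, Matrix.mul_one, Matrix.mul_smul, h2]
    module
  · rw [Matrix.mul_neg, Matrix.mul_one, Matrix.one_mul]
    exact neg_add_cancel _
  · rw [smul_mul, Matrix.one_mul]
    abel

theorem QQ_PP (hn : 2 ≤ n) : QQ n * PP n = 1 := by
  rw [mul_eq_one_comm]
  exact PP_QQ hn

/-- The form. -/
def JB (n : ℕ) : Matrix (Fin 2 ⊕ Fin n) (Fin 2 ⊕ Fin n) ℝ :=
  fromBlocks 0 (EE n) (EE n)ᵀ (1 - (EE n)ᵀ * EE n)

theorem indef : LieAlgebra.Orthogonal.indefiniteDiagonal (Fin 2) (Fin n) ℝ = fromBlocks 1 0 0 (-1) := by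
  rw [LieAlgebra.Orthogonal.indefiniteDiagonal]
  ext i j
  rcases i with i | i <;> rcases j with j | j
  · simp [diagonal_apply, one_apply]
  · simp
  · simp
  · by_cases h : i = j
    · subst h
      simp
    · simp [one_apply, h]

theorem PDP (hn : 2 ≤ n) : (PP n)ᵀ * LieAlgebra.Orthogonal.indefiniteDiagonal (Fin 2) (Fin n) ℝ * PP n = - JB n := by
  have h := EE_mul hn
  rw [indef, PP, fromBlocks_transpose, fromBlocks_multiply, fromBlocks_multiply, JB, fromBlocks_neg]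
  simp only [transpose_smul, transpose_one, transpose_transpose, Matrix.mul_one, Matrix.mul_zero, add_zero, zero_add, Matrix.mul_neg, Matrix.smul_mul,
    Matrix.one_mul, Matrix.mul_smul, Matrix.neg_mul, h, neg_zero]
  congr 1
  · module
  · module
  · module
  · abel

/-- The indices. -/
def ix (n : ℕ) : Fin 2 ⊕ Fin n ≃ Fin (n + 2) where
  toFun := Sum.elim (fun a => ⟨n + 1 - (a : ℕ), by omega⟩) (fun i => ⟨i, by omega⟩)
  invFun := fun i => if h : (i : ℕ) < n then Sum.inr ⟨i, h⟩ else Sum.inl ⟨n + 1 - (i : ℕ), by omega⟩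
  left_inv := by
    rintro (a | i)
    · have h : ¬ n + 1 - (a : ℕ) < n := by omega
      simp only [Sum.elim_inl, dif_neg h]
      congr 1
      apply Fin.ext
      change n + 1 - (n + 1 - (a : ℕ)) = a
      omega
    · simp only [Sum.elim_inr, dif_pos i.2]
  right_inv := by
    intro i
    by_cases h : (i : ℕ) < n
    · simp only [dif_pos h, Sum.elim_inr]
    · simp only [dif_neg h, Sum.elim_inl]
      apply Fin.ext
      change n + 1 - (n + 1 - (i : ℕ)) = i
      omega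

theorem ix_inl (a : Fin 2) : ((ix n (Sum.inl a) : Fin (n + 2)) : ℕ) = n + 1 - (a : ℕ) := rfl

theorem ix_inr (i : Fin n) : ((ix n (Sum.inr i) : Fin (n + 2)) : ℕ) = (i : ℕ) := rfl

theorem JB_eq (hn : 2 ≤ n) : Matrix.reindex (ix n) (ix n) (JB n) = JR (n + 2) := by
  have h0 : ∀ x y, JR (n + 2) (ix n x) (ix n y) = JB n x y := by
    have hET : ∀ i j : Fin n, ((EE n)ᵀ * EE n) i j = if i = j ∧ (i : ℕ) < 2 then 1 else 0 := by
      intro i j
      have e0 : ((EE n)ᵀ * EE n) i j = (if (i : ℕ) = 0 then (1 : ℝ) else 0) * (if (j : ℕ) = 0 then 1 else 0) +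
          (if (i : ℕ) = 1 then 1 else 0) * (if (j : ℕ) = 1 then 1 else 0) := by
        rw [mul_apply, Fin.sum_univ_two]
        rfl
      rw [e0]
      by_cases hij : i = j
      · subst hij
        by_cases h2 : (i : ℕ) < 2
        · rw [if_pos (show i = i ∧ (i : ℕ) < 2 from ⟨rfl, h2⟩)]
          obtain h | h : (i : ℕ) = 0 ∨ (i : ℕ) = 1 := by omega
          · simp [h]
          · simp [h]
        · rw [if_neg (show ¬ (i = i ∧ (i : ℕ) < 2) from fun h => h2 h.2), if_neg (show ¬ (i : ℕ) = 0 by omega),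
            if_neg (show ¬ (i : ℕ) = 1 by omega)]
          norm_num
      · rw [if_neg (show ¬ (i = j ∧ (i : ℕ) < 2) from fun h => hij h.1)]
        have h3 : (i : ℕ) ≠ (j : ℕ) := fun h => hij (Fin.ext h)
        split_ifs <;> first | omega | simp
    rintro (a | i) (c | j)
    · have h1 : ¬ ix n (Sum.inl c) = jj (n + 2) (ix n (Sum.inl a)) := by
        intro h
        have h2 := congrArg Fin.val h
        rw [ix_inl] at h2
        unfold jj at h2
        rw [ix_inl, if_pos (Or.inr (by omega)), Fin.val_rev, ix_inl] at h2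
        omega
      simp only [JR, of_apply, if_neg h1, JB, fromBlocks_apply₁₁, Matrix.zero_apply]
    · have h1 : ix n (Sum.inr j) = jj (n + 2) (ix n (Sum.inl a)) ↔ (j : ℕ) = (a : ℕ) := by
        rw [Fin.ext_iff, ix_inr]
        unfold jj
        rw [ix_inl, if_pos (Or.inr (by omega)), Fin.val_rev, ix_inl]
        omega
      simp only [JR, of_apply, h1, JB, fromBlocks_apply₁₂, EE]
    · have h1 : ix n (Sum.inl c) = jj (n + 2) (ix n (Sum.inr i)) ↔ (i : ℕ) = (c : ℕ) := by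
        rw [Fin.ext_iff, ix_inl]
        unfold jj
        rw [ix_inr]
        split_ifs with h3
        · rw [Fin.val_rev, ix_inr]
          omega
        · rw [ix_inr]
          omega
      simp only [JR, of_apply, h1, JB, fromBlocks_apply₂₁, EE, transpose_apply]
    · have h1 : ix n (Sum.inr j) = jj (n + 2) (ix n (Sum.inr i)) ↔ i = j ∧ ¬ (i : ℕ) < 2 := by
        rw [Fin.ext_iff, Fin.ext_iff, ix_inr]
        unfold jj
        rw [ix_inr]
        split_ifs with h3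
        · rw [Fin.val_rev, ix_inr]
          omega
        · rw [ix_inr]
          omega
      have e1 : JB n (Sum.inr i) (Sum.inr j) = (if i = j then (1 : ℝ) else 0) - if i = j ∧ (i : ℕ) < 2 then 1 else 0 := by
        rw [← hET i j, ← one_apply]
        rfl
      rw [e1]
      simp only [JR, of_apply, h1]
      by_cases hij : i = j
      · subst hij
        by_cases h2 : (i : ℕ) < 2
        · simp [h2]
        · simp [h2]
      · simp [hij]
  ext i j
  rw [reindex_apply, submatrix_apply, ← h0, Equiv.apply_symm_apply, Equiv.apply_symm_apply]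

/-- `so(2, n)`. -/
theorem so_equiv (hn : 2 ≤ n) : Nonempty (LieAlgebra.Orthogonal.so' (Fin 2) (Fin n) ℝ ≃ₗ⁅ℝ⁆ so2 (n + 2)) := by
  have hP : Invertible (PP n) := ⟨QQ n, QQ_PP hn, PP_QQ hn⟩
  let e1 := skewAdjointMatricesLieSubalgebraEquiv (LieAlgebra.Orthogonal.indefiniteDiagonal (Fin 2) (Fin n) ℝ) (PP n) hP
  let e2 := skewAdjointMatricesLieSubalgebraEquivTranspose (R := ℝ) (JB n) (Matrix.reindexAlgEquiv ℝ ℝ (ix n)) (fun _ => rfl)
  have h1 : ((skewAdjointMatricesLieSubalgebra ((PP n)ᵀ * LieAlgebra.Orthogonal.indefiniteDiagonal (Fin 2) (Fin n) ℝ * PP n) :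
      LieSubalgebra ℝ (Matrix (Fin 2 ⊕ Fin n) (Fin 2 ⊕ Fin n) ℝ)) : Set (Matrix (Fin 2 ⊕ Fin n) (Fin 2 ⊕ Fin n) ℝ)) =
      (skewAdjointMatricesLieSubalgebra (JB n) : LieSubalgebra ℝ (Matrix (Fin 2 ⊕ Fin n) (Fin 2 ⊕ Fin n) ℝ)) := by
    rw [PDP hn]
    have h2 : - JB n = (-1 : ℝˣ) • JB n := by
      rw [Units.smul_def, Units.val_neg, Units.val_one, neg_smul, one_smul]
    rw [h2]
    ext X
    exact mem_skewAdjointMatricesLieSubalgebra_unit_smul _ _ _
  have h3 : ((skewAdjointMatricesLieSubalgebra (Matrix.reindexAlgEquiv ℝ ℝ (ix n) (JB n)) :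
      LieSubalgebra ℝ (Matrix (Fin (n + 2)) (Fin (n + 2)) ℝ)) : Set (Matrix (Fin (n + 2)) (Fin (n + 2)) ℝ)) = so2 (n + 2) := by
    have h4 : Matrix.reindexAlgEquiv ℝ ℝ (ix n) (JB n) = JR (n + 2) := JB_eq hn
    rw [h4]
    ext X
    rw [SetLike.mem_coe, SetLike.mem_coe, mem_skewAdjointMatricesLieSubalgebra, mem_skewAdjointMatricesSubmodule, mem_so2]
    rw [Matrix.IsSkewAdjoint, Matrix.IsAdjointPair, Matrix.mul_neg]
    exact eq_neg_iff_add_eq_zero
  exact ⟨((e1.trans (LieEquiv.ofEq _ _ h1)).trans e2).trans (LieEquiv.ofEq _ _ h3)⟩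

/-- **The final theorem**, real rank at least one, `so(2, n)` of Mathlib. -/
theorem final' {L L' : Type} [LieRing L] [LieAlgebra ℝ L] [LieRing L'] [LieAlgebra ℝ L'] {M M' : ℕ} {θ : L ≃ₗ⁅ℝ⁆ L} {θ' : L' ≃ₗ⁅ℝ⁆ L'}
    {b : Module.Basis (Fin M) ℝ L} {b' : Module.Basis (Fin M') ℝ L'} {A : Submodule ℝ L} [LieAlgebra.IsSimple ℝ L] (h : CartanBasis θ b)
    (hA : MaxFlat θ A) (h2 : 1 ≤ Module.finrank ℝ A) [LieAlgebra.IsSimple ℝ L'] (h' : CartanBasis θ' b') (hn : 3 ≤ n)
    (f : L' ≃ₗ⁅ℝ⁆ LieAlgebra.Orthogonal.so' (Fin 2) (Fin n) ℝ) {Γ : Subgroup (autC b)}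
    (hL : Pool.Agent.Helper96.FR.Lattice Γ) {Γ' : Subgroup (autC b')} (hL' : Pool.Agent.Helper96.FR.Lattice Γ') (hiso : IsoL Γ Γ') :
    Nonempty (L ≃ₗ⁅ℝ⁆ L') := by
  obtain ⟨g⟩ := so_equiv (n := n) (by omega)
  obtain ⟨A', hA'⟩ := Pool.Agent.Helper66.OB.exists_flat h'
  have hr' := Pool.Agent.Helper81.OB.rank_so2' h' (f.trans g) (by omega)
  have hr : Module.finrank ℝ A = rankL θ := finrank_eq_rankL h (isAdj_autC b) hA
  have he : rankL θ = rankL θ' := Pool.Agent.Helper66.BD.aut_iso h h' (isAdj_autC b) (isAdj_autC b') (by omega) (by omega) hL hL' hiso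
  exact final h hA (by omega) h' hA' (f.trans g) (by omega) hL hL' hiso

end Pool.Agent.Helper55.OB
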