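import Pool.Agent.Helper55.OB.Defs
import Pool.Agent.Helper66.BD.Conn
import Pool.Agent.Helper35.TZ.Fin2
import Pool.Agent.Helper77.ST.Main
import Pool.Agent.Helper50.SR.Lev
import Pool.Agent.Helper2.BC.Fin
import Pool.Agent.Helper9.OB.B3

/-!
# Project OB (MP_0f6f3f_an, target `so(2, n)`): the source

`L` simple of real rank two with a flat `A`. `Pair2 A α β Hv Hu`: simple roots and the dual basis of the flat. `sq b H k`: the sequence `exp(k n • ad H)` in `autC b`.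
-/

set_option autoImplicit false
set_option linter.unusedSectionVars false

open Filter Topology MeasureTheory Matrix

namespace Pool.Agent.Helper55.OB

open Pool.Agent.Helper96.SA Pool.Agent.Helper96.TO
open Pool.Agent.Helper35.TZ (autC isAdj_autC autC_sub)
open Pool.Agent.Helper43.TZ (Dir opg)
open Pool.Agent.Helper43.TA (TwoF)
open Pool.Agent.Helper66.FR (cen mem_cen)
open Pool.Agent.Helper78.BM (Ctr)
open Pool.Agent.Helper77.ST (SimPair lev)

variable {L : Type} [LieRing L] [LieAlgebra ℝ L] {N : ℕ} {θ : L ≃ₗ⁅ℝ⁆ L} {b : Module.Basis (Fin N) ℝ L} {A : Submodule ℝ L}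

/-- Simple roots and the dual basis of the flat. -/
structure Pair2 (A : Submodule ℝ L) (α β : Module.Dual ℝ A) (Hv Hu : A) : Prop where
  sp : SimPair A α β
  av : α Hv = 1
  bv : β Hv = 0
  au : α Hu = 0
  bu : β Hu = 1

/-- The automorphism `exp(ad x)`. -/
noncomputable def eC (b : Module.Basis (Fin N) ℝ L) (x : L) : autC b :=
  ⟨ex (TT_to b x), (isAdj_autC b).exp_ad x⟩

/-- The one-parameter group of `H`. -/
noncomputable def oG (b : Module.Basis (Fin N) ℝ L) (H : L) : Subgroup (autC b) := opg (autC b) (TT_to b H)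

/-- The sequence `exp(k n • ad H)`. -/
noncomputable def sq (b : Module.Basis (Fin N) ℝ L) (H : L) (k : ℕ → ℝ) : ℕ → autC b := fun n => eC b (k n • H)

theorem eC_coe (b : Module.Basis (Fin N) ℝ L) (x : L) : ((eC b x : autC b) : GL (Fin N) ℝ) = ex (TT_to b x) := rfl

theorem eC_smul (b : Module.Basis (Fin N) ℝ L) (x : L) (τ : ℝ) : ((eC b (τ • x) : autC b) : GL (Fin N) ℝ) = ex (τ • TT_to b x) := by
  rw [eC_coe, map_smul]

theorem sq_coe (b : Module.Basis (Fin N) ℝ L) (H : L) (k : ℕ → ℝ) (n : ℕ) :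
    ((sq b H k n : autC b) : GL (Fin N) ℝ) = ex (k n • TT_to b H) := eC_smul b H (k n)

theorem eC_mem (b : Module.Basis (Fin N) ℝ L) (H : L) (τ : ℝ) : eC b (τ • H) ∈ oG b H := ⟨τ, eC_smul b H τ⟩

theorem sq_mem (b : Module.Basis (Fin N) ℝ L) (H : L) (k : ℕ → ℝ) (n : ℕ) : sq b H k n ∈ oG b H := eC_mem b H (k n)

theorem eC_add (b : Module.Basis (Fin N) ℝ L) {x y : L} (h : ⁅x, y⁆ = 0) : eC b (x + y) = eC b x * eC b y := by
  refine Subtype.ext ?_
  rw [Subgroup.coe_mul, eC_coe, eC_coe, eC_coe, map_add]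
  refine ex_add ?_
  rw [TT_apply_to, TT_apply_to, ← LinearMap.toMatrix_mul, ← LinearMap.toMatrix_mul]
  congr 1
  refine LinearMap.ext fun z => ?_
  change ⁅x, ⁅y, z⁆⁆ = ⁅y, ⁅x, z⁆⁆
  rw [leibniz_lie, h, zero_lie, zero_add]

theorem eC_comm (b : Module.Basis (Fin N) ℝ L) {x y : L} (h : ⁅x, y⁆ = 0) : eC b x * eC b y = eC b y * eC b x := by
  rw [← eC_add b h, ← eC_add b (by rw [← lie_skew, h, neg_zero]), add_comm]

theorem eC_pow (b : Module.Basis (Fin N) ℝ L) (x : L) (n : ℕ) : eC b x ^ n = eC b ((n : ℝ) • x) := by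
  refine Subtype.ext ?_
  rw [Subgroup.coe_pow, eC_coe, eC_smul, ex_nsmul]

/-- Two elements of `oG b H` commute. -/
theorem oG_comm (b : Module.Basis (Fin N) ℝ L) (H : L) : ∀ f ∈ oG b H, ∀ f' ∈ oG b H, f * f' = f' * f := by
  rintro f ⟨s, hs⟩ f' ⟨t, ht⟩
  refine Subtype.ext ?_
  rw [Subgroup.coe_mul, Subgroup.coe_mul, hs, ht, ← ex_add_smul, ← ex_add_smul, add_comm]

section Pair

variable {α β : Module.Dual ℝ A} {Hv Hu : A}

theorem Pair2.symm (hP : Pair2 A α β Hv Hu) : Pair2 A β α Hu Hv where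
  sp := {
    ha := hP.sp.hb
    hb := hP.sp.ha
    ind := fun s t hst => by
      obtain ⟨h1, h2⟩ := hP.sp.ind t s (by rw [add_comm]; exact hst)
      exact ⟨h2, h1⟩
    pos := fun φ hφ => by
      obtain ⟨m, n, h⟩ := hP.sp.pos φ hφ
      exact ⟨n, m, by rwa [add_comm ((n : ℝ) • β)]⟩ }
  av := hP.bu
  bv := hP.au
  au := hP.bv
  bu := hP.av

theorem exists_dual {V : Type} [AddCommGroup V] [Module ℝ V] (h2 : Module.finrank ℝ V = 2) {α β : Module.Dual ℝ V}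
    (hi : ∀ s t : ℝ, s • α + t • β = 0 → s = 0 ∧ t = 0) : ∃ u v : V, α u = 1 ∧ β u = 0 ∧ α v = 0 ∧ β v = 1 := by
  have hf : FiniteDimensional ℝ V := Module.finite_of_finrank_pos (by omega)
  let T : V →ₗ[ℝ] ℝ × ℝ := α.prod β
  have hinj : Function.Surjective T := by
    rw [← LinearMap.range_eq_top]
    by_contra hne
    obtain ⟨g, hg0, hg⟩ := Submodule.exists_le_ker_of_lt_top _ (lt_top_iff_ne_top.2 hne)
    apply hg0
    have h1 : g (1, 0) = 0 ∧ g (0, 1) = 0 := by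
      refine hi _ _ (LinearMap.ext fun x => ?_)
      have h3 : g (T x) = 0 := hg (LinearMap.mem_range_self T x)
      have h4 : T x = α x • ((1 : ℝ), (0 : ℝ)) + β x • ((0 : ℝ), (1 : ℝ)) := by
        change (α x, β x) = _
        simp
      rw [h4, map_add, map_smul, map_smul] at h3
      simp only [LinearMap.add_apply, LinearMap.smul_apply, LinearMap.zero_apply, smul_eq_mul] at h3 ⊢
      linarith
    refine LinearMap.ext fun p => ?_
    have h4 : p = p.1 • ((1 : ℝ), (0 : ℝ)) + p.2 • ((0 : ℝ), (1 : ℝ)) := by simp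
    rw [h4, map_add, map_smul, map_smul, h1.1, h1.2]
    simp
  obtain ⟨u, hu⟩ := hinj (1, 0)
  obtain ⟨v, hv⟩ := hinj (0, 1)
  exact ⟨u, v, congrArg Prod.fst hu, congrArg Prod.snd hu, congrArg Prod.fst hv, congrArg Prod.snd hv⟩

theorem exists_pair2 (h : CartanBasis θ b) (hA : MaxFlat θ A) (h2 : Module.finrank ℝ A = 2) :
    ∃ (α β : Module.Dual ℝ A) (Hv Hu : A), Pair2 A α β Hv Hu := by
  obtain ⟨α, β, hs⟩ := Pool.Agent.Helper77.ST.exists_simPair h hA h2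
  obtain ⟨u, v, h3, h4, h5, h6⟩ := exists_dual h2 hs.ind
  exact ⟨α, β, u, v, hs, h3, h4, h5, h6⟩

theorem Pair2.v0 (hP : Pair2 A α β Hv Hu) : Hv ≠ 0 := by
  rintro rfl
  exact zero_ne_one ((map_zero α).symm.trans hP.av)

theorem Pair2.u0 (hP : Pair2 A α β Hv Hu) : Hu ≠ 0 := hP.symm.v0

theorem TT_symm_of (h : CartanBasis θ b) (hA : MaxFlat θ A) (H : A) : (TT_to b (H : L))ᵀ = TT_to b (H : L) :=
  (isFlat_map h (isAdj_autC b) hA).symm _ ⟨H, H.2, rfl⟩

theorem TT_ne_of (h : CartanBasis θ b) {H : L} (h0 : H ≠ 0) : TT_to b H ≠ 0 :=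
  fun h1 => h0 (TT_inj_to h (by rw [h1, map_zero]))

theorem twoF_pair2 (h : CartanBasis θ b) (hA : MaxFlat θ A) (hP : Pair2 A α β Hv Hu) : TwoF 1 (oG b (Hv : L)) :=
  Pool.Agent.Helper50.SR.src_two h (isAdj_autC b) hA hP.sp.hb hP.bv

theorem dir_pair2 [LieAlgebra.IsSimple ℝ L] (h : CartanBasis θ b) (hA : MaxFlat θ A)
    (hP : Pair2 A α β Hv Hu) : ∃ par : autC b → ℝ, (∀ τ : ℝ, par (eC b (τ • (Hv : L))) = τ) ∧
      Nonempty (Dir (autC b) (oG b (Hv : L)) par (Module.finrank ℝ (lev A β))) := by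
  refine ⟨Pool.Agent.Helper50.SR.pr (autC b) (TT_to b (Hv : L)), fun τ => ?_, ?_⟩
  · exact Pool.Agent.Helper50.SR.pr_ex (TT_symm_of h hA Hv) (TT_ne_of h fun h0 => hP.v0 (Subtype.ext h0)) (eC_smul b _ τ)
  · exact Pool.Agent.Helper50.SR.src_dir_lev h (isAdj_autC b) (autC_sub h) hA hP.sp.hb hP.v0 hP.bv _ _ fun _ hf =>
      Pool.Agent.Helper50.SR.pr_spec hf

theorem sq_cocompact (h : CartanBasis θ b) (hA : MaxFlat θ A) {H : A} (h0 : H ≠ 0) {k : ℕ → ℝ}
    (hk : Tendsto k atTop atTop) : Tendsto (sq b (H : L) k) atTop (cocompact (autC b)) :=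
  Pool.Agent.Helper50.SR.ex_cocompact (TT_symm_of h hA H) (TT_ne_of h fun h1 => h0 (Subtype.ext h1)) hk fun n => sq_coe b _ k n

/-- The big cell of a pair of sequences. -/
def BCell {G1 : Type} [Group G1] [TopologicalSpace G1] [IsTopologicalGroup G1] (b b' : ℕ → G1) : Prop :=
  ∀ Z : Set G1, IsClosed Z → 1 ∈ Z → (∀ q z, q ∈ Ctr b ∨ q ∈ cen b → z ∈ Z → q * z ∈ Z) →
    (∀ q z, (q ∈ Ctr fun n => (b' n)⁻¹) ∨ q ∈ cen b' → z ∈ Z → z * q ∈ Z) → Z = Set.univ

theorem li_pair2 (hP : Pair2 A α β Hv Hu) : LinearIndependent ℝ ![Hv, Hu] := by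
  rw [LinearIndependent.pair_iff]
  intro s t hst
  have h1 := congrArg α hst
  have h2 := congrArg β hst
  simp only [map_add, map_smul, hP.av, hP.au, hP.bv, hP.bu, map_zero, smul_eq_mul] at h1 h2
  exact ⟨by linarith, by linarith⟩

theorem pos_pair2 (hP : Pair2 A α β Hv Hu) : ∀ φ ∈ rootsL A, 0 < φ Hv → 0 ≤ φ Hu := by
  intro φ hφ h0
  obtain ⟨m, n, h1 | h1⟩ := hP.sp.pos φ hφ
  · rw [h1]
    simp only [LinearMap.add_apply, LinearMap.smul_apply, hP.au, hP.bu, smul_eq_mul, mul_zero, mul_one, zero_add]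
    exact Nat.cast_nonneg n
  · exfalso
    rw [h1] at h0
    simp only [LinearMap.neg_apply, LinearMap.add_apply, LinearMap.smul_apply, hP.av, hP.bv, smul_eq_mul, mul_zero, mul_one,
      add_zero] at h0
    have h2 : (0 : ℝ) ≤ m := Nat.cast_nonneg m
    linarith

theorem bc_pair2 (h : CartanBasis θ b) (hA : MaxFlat θ A) (h2 : Module.finrank ℝ A = 2)
    (hP : Pair2 A α β Hv Hu) {k k' : ℕ → ℝ} (hk : Tendsto k atTop atTop) (hk' : Tendsto k' atTop atTop) :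
    BCell (sq b (Hv : L) k) (sq b (Hu : L) k') := by
  intro Z hZ h1 hl hr
  exact Pool.Agent.Helper2.BC.big_cell_rk2 h hA h2 (li_pair2 hP) ⟨β, hP.sp.hb, hP.bv⟩ (pos_pair2 hP) (sq_coe b _ k) (sq_coe b _ k')
    (hk.mono_left Nat.hyperfilter_le_atTop) (hk'.mono_left Nat.hyperfilter_le_atTop) hZ h1 hl hr

end Pair

end Pool.Agent.Helper55.OB
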