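import Pool.Agent.Helper55.OB.Src

/-!
# Project OB (MP_0f6f3f_an, target `so(2, n)`): the source, contracted elements

`far_pair2`: the elements contracted by both sequences are not in a compact set.
-/

set_option autoImplicit false
set_option linter.unusedSectionVars false

open Filter Topology MeasureTheory Matrix

namespace Pool.Agent.Helper55.OB

open Pool.Agent.Helper96.SA Pool.Agent.Helper96.TO
open Pool.Agent.Helper35.TZ (autC isAdj_autC autC_sub)
open Pool.Agent.Helper43.TZ (Dir opg)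
open Pool.Agent.Helper43.TA (TwoF)
open Pool.Agent.Helper66.FR (cen mem_cen)
open Pool.Agent.Helper78.BM (Ctr)
open Pool.Agent.Helper77.ST Pool.Agent.Helper77.LA Pool.Agent.Helper69.SLN
open Pool.Agent.Helper2.BC

variable {L : Type} [LieRing L] [LieAlgebra ℝ L] {N : ℕ} {θ : L ≃ₗ⁅ℝ⁆ L} {b : Module.Basis (Fin N) ℝ L} {A : Submodule ℝ L}
  {α β : Module.Dual ℝ A} {Hv Hu : A}

theorem neg_sum_root [LieAlgebra.IsSimple ℝ L] (h : CartanBasis θ b) (hA : MaxFlat θ A) (hs : SimPair A α β) :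
    -(α + β) ∈ rootsL A := by
  obtain ⟨τ, hτ⟩ := exists_tau h hA
  have key : ∀ S : List (ℕ × ℕ), (1, 1) ∈ S → (RL A α β S ∨ RL A β α S) → -(α + β) ∈ rootsL A := by
    rintro S hS (hR | hR)
    · exact (hR _).2 ⟨(1, 1), hS, Or.inr (by push_cast; rw [one_smul, one_smul])⟩
    · exact (hR _).2 ⟨(1, 1), hS, Or.inr (by push_cast; rw [one_smul, one_smul, add_comm])⟩
  rcases classify h hA hτ hs with ⟨hR, -⟩ | ⟨hR | hR, -⟩ | ⟨hR | hR, -⟩ | hR | hR
  · exact key lA2 (by decide) (Or.inl hR)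
  · exact key lB2 (by decide) (Or.inl hR)
  · exact key lBC2 (by decide) (Or.inl hR)
  · exact key lB2 (by decide) (Or.inr hR)
  · exact key lBC2 (by decide) (Or.inr hR)
  · exact key lG2 (by decide) (Or.inl hR)
  · exact key lG2 (by decide) (Or.inr hR)

theorem mem_es_single {H x : L} {l : ℝ} (hx : ⁅H, x⁆ = l • x) {S : Set ℝ} (hl : l ∈ S) : x ∈ es H S :=
  Submodule.mem_iSup_of_mem l (Submodule.mem_iSup_of_mem hl (Module.End.mem_eigenspace_iff.2 hx))

theorem ac_line (b : Module.Basis (Fin N) ℝ L) {H x : L} {l : ℝ} (hx : ⁅H, x⁆ = l • x) (t : ℝ) :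
    ac b (ex (TT_to b (t • x))) H = H - (t * l) • x := by
  have h1 : ⁅t • x, H⁆ = -((t * l) • x) := by
    rw [smul_lie, ← lie_skew, hx, smul_neg, smul_smul]
  have h2 := ac_ex_mem2 b (t • x) H ⊥ (by rw [h1, lie_neg, lie_smul, smul_lie, lie_self, smul_zero, smul_zero, neg_zero]; exact Submodule.zero_mem _)
    (fun w hw => by rw [(Submodule.mem_bot ℝ).1 hw, lie_zero]; exact Submodule.zero_mem _)
  rw [Submodule.mem_bot, sub_sub, sub_eq_zero, h1] at h2
  rw [h2]
  abel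

theorem far_line (b : Module.Basis (Fin N) ℝ L) {H x : L} {l : ℝ} (hx : ⁅H, x⁆ = l • x) (hl : l ≠ 0) (hx0 : x ≠ 0) {D : Set (autC b)}
    (hD : ∀ t : ℝ, eC b (t • x) ∈ D) : ¬ ∃ K : Set (autC b), IsCompact K ∧ D ⊆ K := by
  rintro ⟨K, hK, hDK⟩
  obtain ⟨i, hi⟩ : ∃ i, b.repr x i ≠ 0 := by
    by_contra hc
    simp only [not_exists, not_not] at hc
    exact hx0 (b.ext_elem fun i => by rw [hc i, map_zero, Finsupp.zero_apply])
  have hcont : Continuous fun g : autC b => b.repr (ac b (g : GL (Fin N) ℝ) H) i := by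
    have e1 : (fun g : autC b => b.repr (ac b (g : GL (Fin N) ℝ) H) i) =
        fun g : autC b => (((g : GL (Fin N) ℝ) : Mat N) *ᵥ ⇑(b.repr H)) i := by
      funext g
      change b.repr (toLin b b ((g : GL (Fin N) ℝ) : Mat N) H) i = _
      rw [toLin_apply, b.repr_sum_self]
    rw [e1]
    exact (continuous_apply i).comp ((Units.continuous_val.comp continuous_subtype_val).matrix_mulVec continuous_const)
  obtain ⟨C, hC⟩ := (hK.image hcont).isBounded.exists_norm_le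
  have h1 : ∀ t : ℝ, |b.repr H i - t * l * b.repr x i| ≤ C := by
    intro t
    have h2 := hC _ ⟨_, hDK (hD t), rfl⟩
    simp only at h2
    rw [eC_coe, ac_line b hx t, map_sub, map_smul, Finsupp.sub_apply, Finsupp.smul_apply, smul_eq_mul, Real.norm_eq_abs] at h2
    exact h2
  have hc0 : l * b.repr x i ≠ 0 := mul_ne_zero hl hi
  have h2 := h1 ((b.repr H i + C + 1) / (l * b.repr x i))
  rw [mul_assoc, div_mul_cancel₀ _ hc0] at h2
  have h3 := abs_le.1 h2
  linarith [h3.1]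

theorem far_pair2 [LieAlgebra.IsSimple ℝ L] (h : CartanBasis θ b) (hA : MaxFlat θ A)
    (hP : Pair2 A α β Hv Hu) {k k' : ℕ → ℝ} (hk : Tendsto k atTop atTop) (hk' : Tendsto k' atTop atTop) :
    ¬ ∃ K : Set (autC b), IsCompact K ∧ Ctr (sq b (Hv : L) k) ∩ Ctr (sq b (Hu : L) k') ⊆ K := by
  obtain ⟨-, x, hx0, hx⟩ := neg_sum_root h hA hP.sp
  have hv : ⁅(Hv : L), x⁆ = (-1 : ℝ) • x := by
    rw [hx, LinearMap.neg_apply, LinearMap.add_apply, hP.av, hP.bv, add_zero]
  have hu : ⁅(Hu : L), x⁆ = (-1 : ℝ) • x := by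
    rw [hx, LinearMap.neg_apply, LinearMap.add_apply, hP.au, hP.bu, zero_add]
  have hs : ∀ (H : L), ⁅H, x⁆ = (-1 : ℝ) • x → ∀ t : ℝ, t • x ∈ es H (Set.Iio 0) := fun H hH t =>
    Submodule.smul_mem _ t (mem_es_single hH (by norm_num))
  refine far_line b hv (by norm_num) hx0 fun t => ⟨?_, ?_⟩
  · exact mem_Ctr h (hA.neg _ Hv.2) (sq_coe b _ k) (hk.mono_left Nat.hyperfilter_le_atTop) (hs _ hv t)
  · exact mem_Ctr h (hA.neg _ Hu.2) (sq_coe b _ k') (hk'.mono_left Nat.hyperfilter_le_atTop) (hs _ hu t)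

end Pool.Agent.Helper55.OB
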