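import Pool.Agent.Helper55.OB.Cyc
import Pool.Agent.Helper46.OB.N1Z
import Pool.Agent.Helper90.OB.G2Fin
import Pool.Agent.Helper78.BI.Icc
import Pool.Agent.Helper66.BD.Fin
import Pool.Agent.Helper35.TZ.Fin2
import Pool.Agent.Helper35.OB.AM
import Pool.Agent.Helper45.DC.Ad
import Pool.Agent.Helper43.LF.Fin
import Pool.Agent.Helper43.LF.Coc4
import Pool.Agent.Helper20.TB.Fin
import Pool.Agent.Helper50.SR.Uw
import Pool.Agent.Helper9.OB.B4
import Pool.Agent.Helper81.OB.Rp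
import Pool.Agent.Helper81.OB.Dim
import Pool.Agent.Helper81.OB.Rnk
import Pool.Agent.Helper87.OB.N2Z
import Pool.Agent.Helper66.OB.NotSl3

/-!
# Project OB (MP_0f6f3f_an, target `so(2, n)`): assembly

`exists_pair_seq`: the two sequences. `match_pair`: matching. `cross`: the conclusion for a cross pair. `half`, `final`: the main theorem.
-/

set_option autoImplicit false
set_option linter.unusedSectionVars false

open Filter Topology MeasureTheory Matrix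

namespace Pool.Agent.Helper55.OB

open Pool.Agent.Helper84 Pool.Agent.Helper84.GN Pool.Agent.Helper84.GN.S3 Pool.Agent.Helper84.GN.S3.X
open Pool.Agent.Helper84.NI Pool.Agent.Helper84.GVN Pool.Agent.Helper90.RK
open Pool.Agent.Helper96.RK hiding toReg
open Pool.Agent.Helper66.FR Pool.Agent.Helper84.FR Pool.Agent.Helper55.FR
open Pool.Agent.Helper78.BM hiding Ctr
open Pool.Agent.Helper78.BM (Ctr)
open Pool.Agent.Helper43.TA (Dat TwoF ltr ms ms_mono)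
open Pool.Agent.Helper43.LF (CocI Prox BigC)
open Pool.Agent.Helper20.TB (Reg2)
open Pool.Agent.Helper66.RKS Pool.Agent.Helper96.SA Pool.Agent.Helper96.TO
open Pool.Agent.Helper35.TZ (autC isAdj_autC autC_sub)
open Pool.Agent.Helper43.TZ (Dir opg)
open Pool.Agent.Helper42.TZ (slR)
open Pool.Agent.Helper77.ST (SimPair lev RL lG2)
open Pool.Agent.Helper9.OB (Dt1 Both Both_anti exists_tau exists_comp)
open Pool.Agent.Helper78.BI (exists_emb_iso ergU_dir)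

variable {L L' : Type} [LieRing L] [LieAlgebra ℝ L] [LieRing L'] [LieAlgebra ℝ L'] {M M' : ℕ} {θ : L ≃ₗ⁅ℝ⁆ L} {θ' : L' ≃ₗ⁅ℝ⁆ L'}
  {b : Module.Basis (Fin M) ℝ L} {b' : Module.Basis (Fin M') ℝ L'} {A : Submodule ℝ L} {N : ℕ}
  {X : Type} [MeasurableSpace X] [MulAction (autC b) X] [MeasurableConstSMul (autC b) X] {μ : Measure X}
  [SMulInvariantMeasure (autC b) X μ] [IsProbabilityMeasure μ] {Γ : Subgroup (autC b)} [Countable Γ] {a : Cocy (autC b) X Γ}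
  {Γ' : Subgroup (autC b')} {E : Emb Γ Γ'} {P : PH Γ' N} {S : Sv P} {α β : Module.Dual ℝ A} {Hv Hu : A}

/-- The data of layer B for `Hu`, with the element `exp(ad Hv)`. -/
theorem Cyc.dt1 (hC : Cyc μ a E) (h : CartanBasis θ b) (hA : MaxFlat θ A) (hP : Pair2 A α β Hv Hu) :
    ∃ D : Dt1 μ a (oG b (Hu : L)), D.e = eC b (Hv : L) := by
  obtain ⟨u, w, h1, h2, h3, h4, h5⟩ := Pool.Agent.Helper50.SR.src_uw h (isAdj_autC b) hA hP.sp.ha (Hv := Hv) (Hu := Hu)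
    (by rw [hP.av]; exact one_pos) hP.au (eC_coe b (Hv : L))
  refine ⟨{ h3 := hC.h3
            hF2 := hC.hF2
            hp := fun F' hF' => ⟨Pool.Agent.Helper96.FR.countable_of_discrete F', hC.hF4 F' hF'⟩
            e := eC b (Hv : L)
            u := u
            w := w
            cF := fun f hf => ⟨?_, (h1 f hf).1, (h1 f hf).2⟩
            con := ⟨h2, h3, h4, h5⟩ }, rfl⟩
  obtain ⟨t, ht⟩ := hf
  have e1 : f = eC b (t • (Hu : L)) := Subtype.ext (by rw [ht, eC_smul])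
  rw [e1]
  exact eC_comm b (by rw [smul_lie, hA.abel _ Hu.2 _ Hv.2, smul_zero])

/-- **The two sequences.** -/
theorem exists_pair_seq (h : CartanBasis θ b) (hA : MaxFlat θ A) (hP : Pair2 A α β Hv Hu) (hS : SO2 P S) (hC : Cyc μ a E) :
    ∃ k k' : ℕ → ℝ, Tendsto k atTop atTop ∧ Tendsto k' atTop atTop ∧
      Reg2 μ a E S (sq b (Hv : L) k) (fun n => (sq b (Hu : L) k' n)⁻¹) ∧
      (XPpr (R1 S) (vec μ a E (sq b (Hv : L) k)) ≠ 0 ∨ XPpr (R2 S) (vec μ a E (sq b (Hv : L) k)) ≠ 0) ∧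
      (XPpr (R1 S) (vec μ a E (sq b (Hu : L) k')) ≠ 0 ∨ XPpr (R2 S) (vec μ a E (sq b (Hu : L) k')) ≠ 0) := by
  obtain ⟨Du, hDu⟩ := hC.dt1 h hA hP
  obtain ⟨Dv, -⟩ := hC.dt1 h hA hP.symm
  have hk' : Tendsto (fun n : ℕ => (n : ℝ)) atTop atTop := tendsto_natCast_atTop_atTop
  obtain ⟨κ, hκ, hreg⟩ := exists_tau (E := E) hS Du (fun n => sq_mem b _ _ n) (sq_cocompact h hA hP.u0 hk')
  have hk : Tendsto (fun n => ((κ n : ℕ) : ℝ)) atTop atTop := tendsto_natCast_atTop_atTop.comp hκ.tendsto_atTop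
  refine ⟨fun n => ((κ n : ℕ) : ℝ), fun n : ℕ => (n : ℝ), hk, hk', ?_,
    exists_comp hS Dv (fun n => sq_mem b _ _ n) (sq_cocompact h hA hP.v0 hk),
    exists_comp hS Du (fun n => sq_mem b _ _ n) (sq_cocompact h hA hP.u0 hk')⟩
  intro C ε hε
  obtain ⟨n₁, hn₁⟩ := exists_nat_ge C
  obtain ⟨n₂, hn₂⟩ := exists_nat_one_div_lt hε
  refine Filter.Eventually.filter_mono Nat.hyperfilter_le_atTop (eventually_atTop.2 ⟨max n₁ n₂, fun n hn => ?_⟩)
  have e1 : (fun m => sq b (Hv : L) (fun n => ((κ n : ℕ) : ℝ)) n * ((sq b (Hu : L) (fun n : ℕ => (n : ℝ)) m)⁻¹)⁻¹) =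
      ltr (Du.e ^ κ n) (sq b (Hu : L) fun n : ℕ => (n : ℝ)) := by
    funext m
    rw [inv_inv, hDu, eC_pow]
    rfl
  rw [e1]
  refine le_trans ((ms_mono ?_ _).trans (hreg n)) ?_
  · rintro γ ⟨i, hi, hiC⟩ hγ
    have h1 := hγ i hi
    have h2 : C ≤ (n : ℝ) := hn₁.trans (by exact_mod_cast (le_max_left _ _).trans hn)
    linarith
  · refine le_trans ?_ hn₂.le
    have h2 : ((n₂ : ℕ) : ℝ) ≤ n := by exact_mod_cast (le_max_right _ _).trans hn
    gcongr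

/-- **Matching.** -/
theorem match_pair (h : CartanBasis θ b) (hA : MaxFlat θ A) (h2 : Module.finrank ℝ A = 2) (hP : Pair2 A α β Hv Hu) (hS : SO2 P S)
    (hp : ∀ k, Prox P k) (hC : Cyc μ a E) {k k' : ℕ → ℝ} (hk : Tendsto k atTop atTop) (hk' : Tendsto k' atTop atTop)
    (hE : ErgU μ a E (Ctr (sq b (Hv : L) k))) (hreg : Reg2 μ a E S (sq b (Hv : L) k) (fun n => (sq b (Hu : L) k' n)⁻¹)) :
    (XPpr (R1 S) (vec μ a E (sq b (Hv : L) k)) = 0 ∨ XPpr (R1 S) (vec μ a E (sq b (Hu : L) k')) = 0) ∧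
      (XPpr (R2 S) (vec μ a E (sq b (Hv : L) k)) = 0 ∨ XPpr (R2 S) (vec μ a E (sq b (Hu : L) k')) = 0) := by
  obtain ⟨i1, i2, i3⟩ := Pool.Agent.Helper35.TZ.lcs_autC b
  have hbc := bc_pair2 h hA h2 hP hk hk'
  have hB : BigC (fun n => (sq b (Hu : L) k' n)⁻¹) (sq b (Hv : L) k) := by
    refine Pool.Agent.Helper43.LF.bigC_of fun Z hZ h1 h3 h4 h5 h6 => ?_
    exact hbc Z hZ h1 (fun q z hq hz => hq.elim (fun hq => h4 q hq z hz) fun hq => h3 q hq z hz)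
      fun q z hq hz => hq.elim (fun hq => h6 q hq z hz) fun hq => h5 q hq z hz
  have hb : Tendsto (sq b (Hv : L) k) (hyperfilter ℕ : Filter ℕ) (cocompact (autC b)) :=
    (sq_cocompact h hA hP.v0 hk).mono_left Nat.hyperfilter_le_atTop
  have hb' : Tendsto (fun n => (sq b (Hu : L) k' n)⁻¹) (hyperfilter ℕ : Filter ℕ) (cocompact (autC b)) :=
    ((Homeomorph.inv (autC b)).isClosedEmbedding.tendsto_cocompact.comp (sq_cocompact h hA hP.u0 hk')).mono_left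
      Nat.hyperfilter_le_atTop
  obtain ⟨hm1, hm2⟩ := Pool.Agent.Helper20.TB.mass_inv (μ := μ) (a := a) (E := E) hS (sq b (Hu : L) k')
  constructor
  · rcases Pool.Agent.Helper43.LF.mat_pt hS (hp 1) hC.coci hC.full hE hC.h3 hC.hK hB
      (Pool.Agent.Helper20.TB.tb_pt hS hC.hF2 hb hb' hreg) with h3 | h3
    · exact Or.inl h3
    · rw [h3, norm_zero] at hm1
      exact Or.inr (norm_eq_zero.1 hm1.symm)
  · rcases Pool.Agent.Helper43.LF.mat_ln hS (hp 2) hC.coci hC.full hE hC.h3 hC.hK hB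
      (Pool.Agent.Helper20.TB.tb_ln hS hC.hF2 hb hb' hreg) with h3 | h3
    · exact Or.inl h3
    · rw [h3, norm_zero] at hm2
      exact Or.inr (norm_eq_zero.1 hm2.symm)

/-- Ergodicity. -/
theorem Cyc.erg [LieAlgebra.IsSimple ℝ L] (hC : Cyc μ a E) (h : CartanBasis θ b) (hA : MaxFlat θ A) (hP : Pair2 A α β Hv Hu)
    {k : ℕ → ℝ} (hk : Tendsto k atTop atTop) : ErgU μ a E (Ctr (sq b (Hv : L) k)) := by
  obtain ⟨i1, i2, i3⟩ := Pool.Agent.Helper35.TZ.lcs_autC b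
  obtain ⟨par, hpar, ⟨D⟩⟩ := dir_pair2 h hA hP
  refine ergU_dir D hC.hinv hC.h3 hC.hK (sq_mem b _ k) ?_
  refine Tendsto.mono_left ?_ Nat.hyperfilter_le_atTop
  exact hk.congr fun n => (hpar (k n)).symm

/-- **A cross pair**: the points at `Hv`, the lines at `Hu`. -/
theorem cross [LieAlgebra.IsSimple ℝ L] (h : CartanBasis θ b) (hA : MaxFlat θ A) (h2 : Module.finrank ℝ A = 2)
    (hP : Pair2 A α β Hv Hu)
    [LieAlgebra.IsSimple ℝ L'] (h' : CartanBasis θ' b') (f : L' ≃ₗ⁅ℝ⁆ so2 N) {r : autC b' → Matrix (Fin N) (Fin N) ℝ}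
    (hmul : ∀ g g', r (g * g') = r g * r g' ∨ r (g * g') = -(r g * r g')) (hform : ∀ g, (r g)ᵀ * JR N * r g = JR N)
    (had : ∀ (g : autC b') (x : L'), r g * (f x : Matrix (Fin N) (Fin N) ℝ) =
        (f (Matrix.toLin b' b' ((g : GL (Fin M') ℝ) : Matrix (Fin M') (Fin M') ℝ) x) : Matrix (Fin N) (Fin N) ℝ) * r g)
    (hL' : Pool.Agent.Helper96.FR.Lattice Γ') (hS : SO2 P S) (hPr : ∀ γ : Γ', P.ι γ = (r (γ : autC b')).map Complex.ofReal)
    (hC : Cyc μ a E) (σ : X → autC b) (hσ : ∀ B : Set (autC b), MeasurableSet[borel (autC b)] B → MeasurableSet (σ ⁻¹' B))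
    (hσa : ∀ (g : autC b) (x : X), g * σ x = σ (g • x) * (a.a g x : autC b))
    {k k' : ℕ → ℝ} (hk : Tendsto k atTop atTop) (hk' : Tendsto k' atTop atTop)
    (h0 : XPpr (R1 S) (vec μ a E (sq b (Hv : L) k)) ≠ 0) (h0' : XPpr (R2 S) (vec μ a E (sq b (Hu : L) k')) ≠ 0) :
    Nonempty (L ≃ₗ⁅ℝ⁆ slR 3 ℝ) ∨ ∃ n : ℕ, 5 ≤ n ∧ n ≤ N ∧ Nonempty (L ≃ₗ⁅ℝ⁆ so2 n) := by
  have hN := hS.hN
  obtain ⟨i1, i2, i3⟩ := Pool.Agent.Helper35.TZ.lcs_autC b
  obtain ⟨par, hpar, ⟨D⟩⟩ := dir_pair2 h hA hP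
  obtain ⟨par', hpar', ⟨D'⟩⟩ := dir_pair2 h hA hP.symm
  have ht : Tendsto (fun n => par (sq b (Hv : L) k n)) (hyperfilter ℕ : Filter ℕ) atTop := by
    refine Tendsto.mono_left ?_ Nat.hyperfilter_le_atTop
    exact hk.congr fun n => (hpar (k n)).symm
  have ht' : Tendsto (fun n => par' (sq b (Hu : L) k' n)) (hyperfilter ℕ : Filter ℕ) atTop := by
    refine Tendsto.mono_left ?_ Nat.hyperfilter_le_atTop
    exact hk'.congr fun n => (hpar' (k' n)).symm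
  have hE : ErgU μ a E (Ctr (sq b (Hv : L) k)) := hC.erg h hA hP hk
  have hE' : ErgU μ a E (Ctr (sq b (Hu : L) k')) := hC.erg h hA hP.symm hk'
  have hloc := Pool.Agent.Helper35.OB.am_main (E := E) hS hC.h3
    (Pool.Agent.Helper35.OB.far_of (hC.hF2 1) (far_pair2 h hA hP hk hk'))
  have hp : ∀ k, Prox P k := Pool.Agent.Helper43.LF.prox_lift hN f r hmul hform had hL' hPr
  have hgen : ∀ Z : Subgroup (autC b), IsClosed (Z : Set (autC b)) → cen (sq b (Hv : L) k) ≤ Z → cen (sq b (Hu : L) k') ≤ Z → Z = ⊤ :=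
    fun Z hZ hv hu => gen_pair2 h hA hP Z hZ hv hu
  obtain ⟨B⟩ := Pool.Agent.Helper45.DC.layerDC1 hS hC.h3 hC.hK hE hE' hgen h0 h0' hloc
    (Pool.Agent.Helper43.LF.full_pt hS (hp 1) hC.coci hC.full hE h0)
  obtain ⟨B'⟩ := Pool.Agent.Helper45.DC.layerDC2 hS hC.h3 hC.hK hE hE' hgen h0 h0' hloc
    (Pool.Agent.Helper43.LF.full_ln hS (hp 2) hC.coci hC.full hE' h0')
  have hd := Pool.Agent.Helper46.OB.layerTZ1 hS B hC.h3 hC.hK hE D (sq_mem b _ k) ht σ hσ hσa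
  have hd' := Pool.Agent.Helper87.OB.layerTZ2 hS B' hC.h3 hC.hK hE' D' (sq_mem b _ k') ht' σ hσ hσa
  obtain ⟨h5, h6⟩ := Pool.Agent.Helper77.ST.one_of_lev h hA hP.sp.ha hd'
  rcases Pool.Agent.Helper77.ST.st_main h hA h2 hP.sp h5 h6 with ⟨⟨e⟩⟩ | h3 | ⟨n, hn, h3, h4, -⟩
  · exact Or.inl ⟨e.trans (Pool.Agent.Helper42.TZ.slR_equiv 3).symm⟩
  · exact (Pool.Agent.Helper90.OB.layerG2 h hA h2 hP h3 h' f hmul hform had hL' hS hPr hC hk hk' h0 h0').elim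
  · refine Or.inr ⟨n + 2, by omega, ?_, h3⟩
    rw [h4] at hd
    by_contra hc
    rw [not_le] at hc
    obtain ⟨m, rfl⟩ : ∃ m, N = m + 3 := ⟨N - 3, by omega⟩
    obtain ⟨l, rfl⟩ : ∃ l, n = m + 2 + l := ⟨n - (m + 2), by omega⟩
    have e1 : m + 3 - 2 = m + 1 := by omega
    have e2 : m + 3 - 3 = m := by omega
    have e4 : m + 2 + l - 1 = m + 1 + l := by omega
    rw [e1, e2, e4] at hd
    have e5 : (m + 1) * m + 2 ≤ (m + 2 + l) * (m + 1 + l) := by nlinarith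
    omega

/-- One half of the main theorem. -/
theorem half [LieAlgebra.IsSimple ℝ L] (h : CartanBasis θ b) (hA : MaxFlat θ A) (h2 : Module.finrank ℝ A = 2)
    [LieAlgebra.IsSimple ℝ L'] (h' : CartanBasis θ' b') (f : L' ≃ₗ⁅ℝ⁆ so2 N) (hN : 5 ≤ N) {Γ : Subgroup (autC b)}
    (hL : Pool.Agent.Helper96.FR.Lattice Γ) {Γ' : Subgroup (autC b')} (hL' : Pool.Agent.Helper96.FR.Lattice Γ') (hiso : IsoL Γ Γ') :
    Nonempty (L ≃ₗ⁅ℝ⁆ slR 3 ℝ) ∨ ∃ n : ℕ, 5 ≤ n ∧ n ≤ N ∧ Nonempty (L ≃ₗ⁅ℝ⁆ so2 n) := by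
  classical
  obtain ⟨i1, i2, i3⟩ := Pool.Agent.Helper35.TZ.lcs_autC b
  have hdt : DiscreteTopology Γ := hL.1
  have hcount : Countable Γ := Pool.Agent.Helper96.FR.countable_of_discrete Γ
  obtain ⟨X, mX, act, ν, hν, c, hmp, hme, hmul, hF2, hF3, hF4, hKc, hinv, ⟨σ, hσ, hσa⟩, hcoc⟩ :=
    Pool.Agent.Helper43.LF.exists_cocycle4 Γ hL
  have i4 : MeasurableConstSMul (autC b) X := ⟨fun g => (hmp g).measurable⟩
  have i5 : SMulInvariantMeasure (autC b) X ν := ⟨fun g s hs => (hmp g).measure_preimage hs.nullMeasurableSet⟩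
  let a : Cocy (autC b) X Γ := ⟨c, fun h l => hme h {l}, hmul⟩
  obtain ⟨E, hfull, hicc⟩ := exists_emb_iso (Pool.Agent.Helper35.TZ.icc_autC h hA h2.ge hL) hiso
  have hC : Cyc ν a E := ⟨hF2, hF3, hF4, hKc, Pool.Agent.Helper78.BI.invT_of hfull hicc hinv, hfull, hcoc⟩
  obtain ⟨r, hrm, hrf, hra⟩ := Pool.Agent.Helper81.OB.exists_lift' h' f (by omega)
  obtain ⟨P, S, hS, hPr⟩ := Pool.Agent.Helper81.OB.exists_SO2' h' hN hrm hrf hra Γ' hL'.1
  obtain ⟨α, β, Hv, Hu, hP⟩ := exists_pair2 h hA h2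
  obtain ⟨k, k', hk, hk', hreg, hv, hu⟩ := exists_pair_seq h hA hP hS hC
  have hp : ∀ k, Prox P k := Pool.Agent.Helper43.LF.prox_lift hN f r hrm hrf hra hL' hPr
  obtain ⟨hm1, hm2⟩ := match_pair h hA h2 hP hS hp hC hk hk' (hC.erg h hA hP hk) hreg
  rcases hv with hv | hv
  · rcases hu with hu | hu
    · rcases hm1 with h0 | h0
      · exact absurd h0 hv
      · exact absurd h0 hu
    · exact cross h hA h2 hP h' f hrm hrf hra hL' hS hPr hC σ hσ hσa hk hk' hv hu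
  · rcases hu with hu | hu
    · exact cross h hA h2 hP.symm h' f hrm hrf hra hL' hS hPr hC σ hσ hσa hk' hk hu hv
    · rcases hm2 with h0 | h0
      · exact absurd h0 hv
      · exact absurd h0 hu

/-- **The final theorem.** -/
theorem final [LieAlgebra.IsSimple ℝ L] (h : CartanBasis θ b) (hA : MaxFlat θ A) (h2 : 2 ≤ Module.finrank ℝ A)
    [LieAlgebra.IsSimple ℝ L'] (h' : CartanBasis θ' b') {A' : Submodule ℝ L'} (hA' : MaxFlat θ' A') (f : L' ≃ₗ⁅ℝ⁆ so2 N) (hN : 5 ≤ N)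
    {Γ : Subgroup (autC b)}
    (hL : Pool.Agent.Helper96.FR.Lattice Γ) {Γ' : Subgroup (autC b')} (hL' : Pool.Agent.Helper96.FR.Lattice Γ') (hiso : IsoL Γ Γ') :
    Nonempty (L ≃ₗ⁅ℝ⁆ L') := by
  have hr' := Pool.Agent.Helper81.OB.rank_so2' h' f (by omega)
  have hr : Module.finrank ℝ A = rankL θ := finrank_eq_rankL h (isAdj_autC b) hA
  have he : rankL θ = rankL θ' := Pool.Agent.Helper66.BD.aut_iso h h' (isAdj_autC b) (isAdj_autC b') (by omega) (by omega) hL hL' hiso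
  have hrA' : Module.finrank ℝ A' = 2 := by rw [finrank_eq_rankL h' (isAdj_autC b') hA', hr']
  have hiso' : IsoL Γ' Γ := by
    obtain ⟨e⟩ := hiso
    exact ⟨e.symm⟩
  rcases half h hA (by omega) h' f hN hL hL' hiso with h3 | ⟨n, hn, hnN, ⟨g⟩⟩
  · obtain ⟨e⟩ := h3
    exact (Pool.Agent.Helper66.OB.not_sl3 h h' hr'.ge e f hN hL hL' hiso).elim
  · rcases half h' hA' hrA' h g hn hL' hL hiso' with h3 | ⟨n', hn', hn'n, ⟨g'⟩⟩
    · obtain ⟨e⟩ := h3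
      exact (Pool.Agent.Helper66.OB.not_sl3 h' h (by omega) e g hn hL' hL hiso').elim
    · have e1 : N = n' := Pool.Agent.Helper81.OB.so2_inj' (by omega) (by omega) ⟨f.symm.trans g'⟩
      have e2 : n = N := by omega
      subst e2
      exact ⟨g.trans f.symm⟩

end Pool.Agent.Helper55.OB
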